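import Pool.Agent.H64.FTM.Targets

/-!
# MP_fd35e1: row GLO: all classes are numerically equivalent to elements of `Tau`
-/

set_option autoImplicit false

open Matrix Pool.Agent.H64.CC Pool.Agent.H2.NL Pool.Agent.H2.KM Pool.Agent.H64.EV
open Pool.Agent.H64.FTM
open Pool.Agent.H64.EK hiding kap

namespace Pool.Agent.H35.FTM

section basic

variable {K : Type} [Field K] {J E : Type}

open Classical in
/-- the part of `f` with the pattern `p` at the places of `S` -/
noncomputable def patS {m : ℕ} (S : Finset (Fin m)) (p : Fin m → Bool)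
    (f : (Fin m → J ⊕ E) → K) (w : Fin m → J ⊕ E) : K :=
  if ∀ i ∈ S, (w i).isLeft = p i then f w else 0

/-- `f` has the pattern `p` -/
def Pat {m : ℕ} (p : Fin m → Bool) (f : (Fin m → J ⊕ E) → K) : Prop :=
  ∀ w, f w ≠ 0 → ∀ i, (w i).isLeft = p i

theorem patS_pos {m : ℕ} {S : Finset (Fin m)} {p : Fin m → Bool} {f : (Fin m → J ⊕ E) → K}
    {w : Fin m → J ⊕ E} (h : ∀ i ∈ S, (w i).isLeft = p i) : patS S p f w = f w := by
  unfold patS
  rw [if_pos h]

theorem patS_neg {m : ℕ} {S : Finset (Fin m)} {p : Fin m → Bool} {f : (Fin m → J ⊕ E) → K}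
    {w : Fin m → J ⊕ E} (h : ¬ ∀ i ∈ S, (w i).isLeft = p i) : patS S p f w = 0 := by
  unfold patS
  rw [if_neg h]

theorem pat_patS {m : ℕ} (p : Fin m → Bool) (f : (Fin m → J ⊕ E) → K) :
    Pat p (patS Finset.univ p f) := by
  intro w hw i
  by_contra hne
  apply hw
  exact patS_neg fun h => hne (h i (Finset.mem_univ i))

theorem sum_patS {m : ℕ} (f : (Fin m → J ⊕ E) → K) :
    ∑ p : Fin m → Bool, patS Finset.univ p f = f := by
  funext w
  rw [Finset.sum_apply]
  rw [Finset.sum_eq_single (fun i => (w i).isLeft)]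
  · exact patS_pos fun i _ => rfl
  · intro p _ hp
    apply patS_neg
    intro h
    apply hp
    funext i
    exact (h i (Finset.mem_univ i)).symm
  · intro h
    exact absurd (Finset.mem_univ _) h

theorem pr_add [Fintype J] [Fintype E] (H : OForm K (J ⊕ E)) {m : ℕ}
    (f g g' : (Fin m → J ⊕ E) → K) : pr H f (g + g') = pr H f g + pr H f g' := by
  unfold pr
  rw [← Finset.sum_add_distrib]
  refine Finset.sum_congr rfl fun w _ => ?_
  show (∏ i, H.c (w i)) * f w * (g _ + g' _) = _
  ring

theorem pr_add' [Fintype J] [Fintype E] (H : OForm K (J ⊕ E)) {m : ℕ}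
    (f f' g : (Fin m → J ⊕ E) → K) : pr H (f + f') g = pr H f g + pr H f' g := by
  unfold pr
  rw [← Finset.sum_add_distrib]
  refine Finset.sum_congr rfl fun w _ => ?_
  show (∏ i, H.c (w i)) * (f w + f' w) * g _ = _
  ring

theorem pr_smul [Fintype J] [Fintype E] (H : OForm K (J ⊕ E)) {m : ℕ} (c : K)
    (f g : (Fin m → J ⊕ E) → K) : pr H f (c • g) = c * pr H f g := by
  unfold pr
  rw [Finset.mul_sum]
  refine Finset.sum_congr rfl fun w _ => ?_
  show (∏ i, H.c (w i)) * f w * (c * g _) = _
  ring

theorem pr_smul' [Fintype J] [Fintype E] (H : OForm K (J ⊕ E)) {m : ℕ} (c : K)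
    (f g : (Fin m → J ⊕ E) → K) : pr H (c • f) g = c * pr H f g := by
  unfold pr
  rw [Finset.mul_sum]
  refine Finset.sum_congr rfl fun w _ => ?_
  show (∏ i, H.c (w i)) * (c * f w) * g _ = _
  ring

theorem pr_zero [Fintype J] [Fintype E] (H : OForm K (J ⊕ E)) {m : ℕ}
    (f : (Fin m → J ⊕ E) → K) : pr H f 0 = 0 := by
  unfold pr
  refine Finset.sum_eq_zero fun w _ => ?_
  show (∏ i, H.c (w i)) * f w * 0 = 0
  ring

theorem tyf_add {m a : ℕ} {f g : (Fin m → J ⊕ E) → K} (hf : Tyf a f) (hg : Tyf a g) :
    Tyf a (f + g) := by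
  intro w hw
  by_cases h : f w = 0
  · apply hg w
    intro h'
    apply hw
    show f w + g w = 0
    rw [h, h', add_zero]
  · exact hf w h

theorem tyf_zero {m a : ℕ} : Tyf a (0 : (Fin m → J ⊕ E) → K) := fun _ hw => absurd rfl hw

theorem tyf_smul [CharZero K] {m a : ℕ} (q : ℚ) {f : (Fin m → J ⊕ E) → K} (hf : Tyf a f) :
    Tyf a (q • f) := by
  intro w hw
  apply hf w
  intro h
  apply hw
  show q • f w = 0
  rw [h, smul_zero]

/-- the elements of type `a` of a space -/
def typ [CharZero K] {m : ℕ} (N : Submodule ℚ ((Fin m → J ⊕ E) → K)) (a : ℕ) :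
    Submodule ℚ ((Fin m → J ⊕ E) → K) where
  carrier := {x | x ∈ N ∧ Tyf a x}
  add_mem' := fun {_ _} h h' => ⟨N.add_mem h.1 h'.1, tyf_add h.2 h'.2⟩
  zero_mem' := ⟨N.zero_mem, tyf_zero⟩
  smul_mem' := fun q _ h => ⟨N.smul_mem q h.1, tyf_smul q h.2⟩

/-- the elements whose reversal is in the space -/
def rvs [CharZero K] {m : ℕ} (N : Submodule ℚ ((Fin m → J ⊕ E) → K)) :
    Submodule ℚ ((Fin m → J ⊕ E) → K) where
  carrier := {x | rvf x ∈ N}
  add_mem' := fun {_ _} h h' => N.add_mem h h'
  zero_mem' := N.zero_mem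
  smul_mem' := fun q _ h => N.smul_mem q h

theorem rvf_rvf {m : ℕ} (f : (Fin m → J ⊕ E) → K) : rvf (rvf f) = f := by
  funext w
  show f (fun i => w i.rev.rev) = f w
  congr 1
  funext i
  rw [Fin.rev_rev]

end basic

theorem card_lt {m a : ℕ} (h : a ≤ m) :
    (Finset.univ.filter fun i : Fin m => i.1 < a).card = a := by
  have h1 : (Finset.univ.filter fun i : Fin m => i.1 < a) =
      (Finset.univ : Finset (Fin a)).map (Fin.castLEEmb h) := by
    ext i
    simp only [Finset.mem_filter, Finset.mem_univ, true_and, Finset.mem_map]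
    constructor
    · intro hi
      exact ⟨⟨i.1, hi⟩, Fin.ext rfl⟩
    · rintro ⟨j, rfl⟩
      exact j.2
  rw [h1, Finset.card_map, Finset.card_univ, Fintype.card_fin]

theorem exists_perm {m : ℕ} (q : Fin m → Bool) :
    ∃ σ : Equiv.Perm (Fin m), ∀ i, ((σ i).1 < (Finset.univ.filter fun i => q i = true).card ↔
      q i = true) := by
  set a := (Finset.univ.filter fun i => q i = true).card with ha
  have ham : a ≤ m := by
    have := Finset.card_le_univ (Finset.univ.filter fun i : Fin m => q i = true)
    rwa [Fintype.card_fin] at this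
  have hc : Fintype.card {i : Fin m // q i = true} = Fintype.card {i : Fin m // i.1 < a} := by
    rw [Fintype.card_subtype, Fintype.card_subtype, card_lt ham]
  set e := Fintype.equivOfCardEq hc with he
  refine ⟨e.extendSubtype, fun i => ⟨fun h => ?_, fun h => ?_⟩⟩
  · by_contra hne
    exact e.extendSubtype_not_mem i hne h
  · exact e.extendSubtype_mem i h

section main

variable {K : Type} [Field K] [CharZero K] {J E : Type} [Fintype J] [DecidableEq J] [Fintype E]
  [DecidableEq E] {F : OForm K J} {G : OForm K E} {A : ℕ → Submodule ℚ (List (J ⊕ E) → K)}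

theorem patS_mem (hCUT : T_CUT) (hM : MCal F G A) {k : ℕ} (p : Fin (2 * k) → Bool)
    (S : Finset (Fin (2 * k))) : ∀ f ∈ Af A k, patS S p f ∈ Af A k := by
  induction S using Finset.induction_on with
  | empty =>
    intro f hf
    have : patS ∅ p f = f := by
      funext w
      exact patS_pos fun i hi => absurd hi (Finset.notMem_empty i)
    rwa [this]
  | insert j S hj ih =>
    intro f hf
    have h1 := ih f hf
    have h2 := hCUT K J E F G A hM k j _ h1
    by_cases hp : p j = true
    · have e : patS (insert j S) p f =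
          fun w => if (w j).isLeft = true then patS S p f w else 0 := by
        funext w
        by_cases hw : (w j).isLeft = true
        · rw [if_pos hw]
          by_cases hS : ∀ i ∈ S, (w i).isLeft = p i
          · rw [patS_pos hS, patS_pos]
            intro i hi
            rcases Finset.mem_insert.1 hi with rfl | hi
            · rw [hw, hp]
            · exact hS i hi
          · rw [patS_neg hS, patS_neg]
            intro h
            exact hS fun i hi => h i (Finset.mem_insert_of_mem hi)
        · rw [if_neg hw, patS_neg]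
          intro h
          apply hw
          rw [h j (Finset.mem_insert_self j S), hp]
      rw [e]
      exact h2
    · have hp' : p j = false := by simpa using hp
      have e : patS (insert j S) p f =
          patS S p f - fun w => if (w j).isLeft = true then patS S p f w else 0 := by
        funext w
        show patS (insert j S) p f w =
          patS S p f w - if (w j).isLeft = true then patS S p f w else 0
        by_cases hw : (w j).isLeft = true
        · rw [if_pos hw, sub_self, patS_neg]
          intro h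
          have := h j (Finset.mem_insert_self j S)
          rw [hw, hp'] at this
          exact absurd this (by decide)
        · rw [if_neg hw, sub_zero]
          have hw' : (w j).isLeft = false := by simpa using hw
          by_cases hS : ∀ i ∈ S, (w i).isLeft = p i
          · rw [patS_pos hS, patS_pos]
            intro i hi
            rcases Finset.mem_insert.1 hi with rfl | hi
            · rw [hw', hp']
            · exact hS i hi
          · rw [patS_neg hS, patS_neg]
            intro h
            exact hS fun i hi => h i (Finset.mem_insert_of_mem hi)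
      rw [e]
      exact (Af A k).sub_mem h1 h2

/-- the conclusion for one class -/
def Con (F : OForm K J) (G : OForm K E) (A : ℕ → Submodule ℚ (List (J ⊕ E) → K)) (z : K)
    (b k : ℕ) (f : (Fin (2 * k) → J ⊕ E) → K) : Prop :=
  ∃ s ∈ Tau F G A z b k, ∀ x ∈ Af A k, pr (osum F G) x (rvf (f - s)) = 0

theorem con_add {z : K} {b k : ℕ} {f g : (Fin (2 * k) → J ⊕ E) → K} (hf : Con F G A z b k f)
    (hg : Con F G A z b k g) : Con F G A z b k (f + g) := by
  obtain ⟨s, hs, h⟩ := hf
  obtain ⟨s', hs', h'⟩ := hg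
  refine ⟨s + s', (Tau F G A z b k).add_mem hs hs', fun x hx => ?_⟩
  have e : rvf (f + g - (s + s')) = rvf (f - s) + rvf (g - s') := by
    funext w
    show f _ + g _ - (s _ + s' _) = (f _ - s _) + (g _ - s' _)
    ring
  rw [e, pr_add, h x hx, h' x hx, add_zero]

theorem con_mem {z : K} {b k : ℕ} {f : (Fin (2 * k) → J ⊕ E) → K}
    (hf : f ∈ Tau F G A z b k) : Con F G A z b k f := by
  refine ⟨f, hf, fun x _ => ?_⟩
  have e : rvf (f - f) = (0 : (Fin (2 * k) → J ⊕ E) → K) := by
    funext w
    show f _ - f _ = 0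
    ring
  rw [e, pr_zero]

theorem pr_type {a m : ℕ} (F : OForm K J) (G : OForm K E) (x g : (Fin m → J ⊕ E) → K)
    (hg : Tyf a g) : pr (osum F G) x g =
      pr (osum F G) (patS Finset.univ (fun i => decide (i.1 < a)) x) g := by
  unfold pr
  refine Finset.sum_congr rfl fun w _ => ?_
  by_cases h0 : g (fun i => (osum F G).st (w i)) = 0
  · rw [h0, mul_zero, mul_zero]
  · have h1 := hg _ h0
    rw [patS_pos]
    intro i _
    rw [← h1 i]
    show (w i).isLeft = (Sum.map F.st G.st (w i)).isLeft
    cases w i <;> rfl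

theorem con_pat (hACT : T_ACT) (hAFA : T_AFA) (hPRF : T_PRF) (hTYB : T_TYB) (hCUT : T_CUT)
    (hBRM : T_BRM) (hLIN : T_LIN) (hRAT : T_RAT) (hM : MCal F G A)
    (hr : ∀ t ∈ AR A 1, ∃ q : ℚ, con F.η 0 t [] = (q : K)) (z : K) (b : ℕ)
    (hF : ∀ k a : ℕ, a ≤ 2 * k → FTa F G A z b k a) (k : ℕ)
    (f : (Fin (2 * k) → J ⊕ E) → K) (hf : f ∈ Af A k) (p : Fin (2 * k) → Bool) (hp : Pat p f) :
    Con F G A z b k f := by
  classical
  set q : Fin (2 * k) → Bool := fun i => p i.rev with hq
  obtain ⟨σ, hσ⟩ := exists_perm q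
  set a := (Finset.univ.filter fun i => q i = true).card with ha
  have ham : a ≤ 2 * k := by
    have := Finset.card_le_univ (Finset.univ.filter fun i : Fin (2 * k) => q i = true)
    rwa [Fintype.card_fin] at this
  rcases Nat.eq_zero_or_pos a with h0 | h0
  · -- type 0
    have hq0 : ∀ i, q i = false := by
      intro i
      have h1 := (hσ i).not
      rw [h0] at h1
      have h2 : ¬ q i = true := h1.1 (Nat.not_lt_zero _)
      simpa using h2
    have hp0 : ∀ i, p i = false := by
      intro i
      have := hq0 i.rev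
      simpa [hq] using this
    obtain ⟨t, ht, rfl⟩ := hf
    apply con_mem
    apply Submodule.subset_span
    have hty : Ty (2 * k) 0 t := by
      rw [(hTYB K J E (2 * k) 0 (Nat.zero_le _)).1 t]
      intro w hw i
      rw [hp w hw i, hp0 i]
      rfl
    refine ⟨0, Nat.zero_le k, t, ht, Or.inl hty, 1, ?_⟩
    rw [(hACT K (J ⊕ E) (osum F G).o (2 * k)).2.1]
    funext w
    show t (List.ofFn w) = 1 * t ((List.ofFn w).drop 0)
    rw [one_mul, List.drop_zero]
  · obtain ⟨pr1, pr2, pr3, pr4⟩ := hPRF K (J ⊕ E) (osum F G) (2 * k)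
    obtain ⟨ac1, ac2, -, -⟩ := hACT K (J ⊕ E) (osum F G).o (2 * k)
    obtain ⟨-, hAf⟩ := hAFA K (J ⊕ E) (osum F G).o (osum F G).η (osum F G).ω A hM.calculus
    obtain ⟨br1, br2, -⟩ := hBRM K J E F G A hM z b
    set y : (Fin (2 * k) → J ⊕ E) → K := ac (osum F G).o σ (rvf f) with hy
    have hyt : Tyf a y := by
      intro w hw i
      have h1 : rvf f (fun i => w (σ i)) ≠ 0 := by
        intro h
        apply hw
        show kap _ σ w * rvf f (fun i => w (σ i)) = 0
        rw [h, mul_zero]
      have h2 := hp _ h1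
      have h3 := h2 (σ.symm i).rev
      simp only [Fin.rev_rev, Equiv.apply_symm_apply] at h3
      rw [h3]
      have h4 := hσ (σ.symm i)
      rw [Equiv.apply_symm_apply] at h4
      have h5 : p (σ.symm i).rev = q (σ.symm i) := rfl
      rw [h5]
      by_cases h6 : i.1 < a
      · rw [h4.1 h6, decide_eq_true h6]
      · have h7 : q (σ.symm i) = false := by
          have := h4.not.1 h6
          simpa using this
        rw [h7, decide_eq_false h6]
    have hyA : rvf y ∈ Af A k := by
      rw [hy, pr3, rvf_rvf]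
      exact hAf k _ f hf
    set B : ((Fin (2 * k) → J ⊕ E) → K) →ₗ[K] ((Fin (2 * k) → J ⊕ E) → K) →ₗ[K] K :=
      LinearMap.mk₂ K (pr (osum F G)) (fun f f' g => pr_add' _ f f' g)
        (fun c f g => pr_smul' _ c f g) (fun f g g' => pr_add _ f g g')
        (fun c f g => pr_smul _ c f g) with hB
    have hBd : ∀ x y, B x y = pr (osum F G) x y := fun x y => rfl
    obtain ⟨s', hs', hs⟩ := hLIN K ((Fin (2 * k) → J ⊕ E) → K) B (typ (Af A k) a)
      (typ (rvs (Af A k)) a) (typ (rvs (Tau F G A z b k)) a)
      (fun x hx => ⟨br1 k hx.1, hx.2⟩)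
      (fun x hx y hy => hRAT K J E F G A hM hr k a x y h0 ham hx.1 hy.1 hx.2 hy.2)
      (fun x hx h y hy => hF k a ham x hx.1 hx.2 (fun y hy1 hy2 => h y ⟨hy1, hy2⟩) y hy.1 hy.2)
      y ⟨hyA, hyt⟩
    refine ⟨rvf (ac (osum F G).o σ⁻¹ s'), ?_, ?_⟩
    · rw [pr3]
      exact br2 k _ _ hs'.1
    · intro x hx
      have e1 : rvf (f - rvf (ac (osum F G).o σ⁻¹ s')) =
          ac (osum F G).o σ⁻¹ (y - s') := by
        have e2 : rvf f = ac (osum F G).o σ⁻¹ y := by
          rw [hy, ← ac1, inv_mul_cancel, ac2]
        have e3 : rvf (f - rvf (ac (osum F G).o σ⁻¹ s')) =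
            rvf f - rvf (rvf (ac (osum F G).o σ⁻¹ s')) := rfl
        rw [e3, rvf_rvf, e2]
        funext w
        show kap _ σ⁻¹ w * y _ - kap _ σ⁻¹ w * s' _ = kap _ σ⁻¹ w * (y _ - s' _)
        ring
      rw [e1, ← pr2]
      have hys : Tyf a (y - s') := by
        have h1 : y - s' = y + (-1 : ℚ) • s' := by
          funext w
          show y w - s' w = y w + (-1 : ℚ) • s' w
          rw [neg_smul, one_smul]
          ring
        rw [h1]
        exact tyf_add hyt (tyf_smul _ hs'.2)
      rw [pr_type F G _ _ hys]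
      refine hs _ ⟨patS_mem hCUT hM _ _ _ (hAf k σ x hx), ?_⟩
      exact pat_patS _ _

theorem pf_GLO (hACT : T_ACT) (hAFA : T_AFA) (hPRF : T_PRF) (hTYB : T_TYB) (hCUT : T_CUT)
    (hBRM : T_BRM) (hLIN : T_LIN) (hRAT : T_RAT) : T_GLO := by
  intro K _ _ J E _ _ _ _ F G A hM hr z b hF k f hf
  have key : Con F G A z b k (∑ p : Fin (2 * k) → Bool, patS Finset.univ p f) := by
    apply Finset.sum_induction
    · intro f g hf hg
      exact con_add hf hg
    · exact con_mem (Tau F G A z b k).zero_mem
    · intro p _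
      exact con_pat hACT hAFA hPRF hTYB hCUT hBRM hLIN hRAT hM hr z b hF k _
        (patS_mem hCUT hM p Finset.univ f hf) p (pat_patS p f)
  rw [sum_patS] at key
  exact key

end main

end Pool.Agent.H35.FTM
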