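import Pool.Agent.H64.FTM.Targets

/-!
# The tensor `h`, for odd letters (board ftm_modules, row OH1; adapted from H44/EV/OHT, row OHT)
-/

set_option autoImplicit false

open Matrix Pool.Agent.H64.CC Pool.Agent.H2.NL Pool.Agent.H64.EV Pool.Agent.H64.FTM

namespace Pool.Agent.H35.FTM

theorem pf_OH1 : T_OH1 := by
  intro K _ _ I _ _ F A hC c1 c2 h1 h2
  -- parity
  have hpar : ∀ r d, c1 r d ≠ 0 → F.o r = F.o d := by
    intro r d hne
    have h3 := hC.even 1 (two (Matrix.of c1)) [r, d] h1 (by simp) hne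
    revert h3
    unfold odds
    cases hr : F.o r <;> cases hd : F.o d <;> simp [List.filter, hr, hd]
  obtain ⟨t1, ht1⟩ : ∃ t1 : List I → K, t1 = sw F.o 1 (sw F.o 2 (sw F.o 1 (tp 2 (two F.ω)
    (two (Matrix.of c1))))) := ⟨_, rfl⟩
  obtain ⟨t2, ht2⟩ : ∃ t2 : List I → K, t2 = sw F.o 1 (sw F.o 2 (four c2)) := ⟨_, rfl⟩
  have mem1 : t1 ∈ A 2 := by
    rw [ht1]
    have e1 : tp 2 (two F.ω) (two (Matrix.of c1)) ∈ A 2 := hC.tp 1 1 _ _ hC.om h1
    exact hC.sw 2 1 _ (hC.sw 2 2 _ (hC.sw 2 1 _ e1 (by norm_num)) (by norm_num)) (by norm_num)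
  have mem2 : t2 ∈ A 2 := by
    rw [ht2]
    exact hC.sw 2 1 _ (hC.sw 2 2 _ h2 (by norm_num)) (by norm_num)
  have v1 : ∀ a d r s, t1 [a, d, r, s] = ks K (F.o d) (F.o r) * (ks K (F.o d) (F.o s) *
      (ks K (F.o r) (F.o s) * (F.ω a s * c1 r d))) := by
    intro a d r s
    rw [ht1]
    rfl
  have v2 : ∀ a d r s, t2 [a, d, r, s] = ks K (F.o d) (F.o r) * (ks K (F.o d) (F.o s) *
      c2 a r s d) := by
    intro a d r s
    rw [ht2]
    rfl
  have hω : ∀ a p, F.ω a (F.st p) = if a = p then (F.c (F.st p))⁻¹ else 0 := by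
    intro a p
    have e : F.ω a (F.st p) = if F.st p = F.st a then (F.c (F.st p))⁻¹ else 0 := rfl
    rw [e]
    by_cases h : a = p
    · rw [if_pos h, if_pos (by rw [h])]
    · rw [if_neg h, if_neg]
      intro h'
      exact h (F.st_inj h').symm
  have g1 : ∀ a d p q, F.M4 t1 (a, d) (p, q) =
      if a = p then F.c q * c1 (F.st q) d else 0 := by
    intro a d p q
    have e : F.M4 t1 (a, d) (p, q) =
      t1 [a, d, F.st q, F.st p] * (F.c (F.st p) * F.c (F.st q)) := rfl
    rw [e, v1, hω, F.o_st, F.o_st]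
    by_cases h : a = p
    · rw [if_pos h, if_pos h]
      by_cases h0 : c1 (F.st q) d = 0
      · rw [h0]
        ring
      · have h3 := hpar _ _ h0
        rw [F.o_st] at h3
        have h4 := inv_mul_cancel₀ (F.c_ne (F.st p))
        have h5 := ks_mul_self K (F.o q) (F.o p)
        have h6 := F.sg_c_st q
        rw [← h3, ks_self]
        calc _ = (ks K (F.o q) (F.o p) * ks K (F.o q) (F.o p)) *
              ((F.c (F.st p))⁻¹ * F.c (F.st p)) *
              ((sg K (F.o q) * F.c (F.st q)) * c1 (F.st q) d) := by ring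
          _ = _ := by rw [h4, h5, h6, one_mul, one_mul]
    · rw [if_neg h, if_neg h]
      ring
  have g2 : ∀ a d p q, F.M4 t2 (a, d) (p, q) =
      ks K (F.o d) (F.o q) * ks K (F.o d) (F.o p) * (F.c (F.st p) * F.c (F.st q)) *
        c2 a (F.st q) (F.st p) d := by
    intro a d p q
    have e : F.M4 t2 (a, d) (p, q) =
      t2 [a, d, F.st q, F.st p] * (F.c (F.st p) * F.c (F.st q)) := rfl
    rw [e, v2, F.o_st, F.o_st]
    ring
  have g : ∀ x y, F.M4 (t1 + t2) x y = F.M4 t1 x y + F.M4 t2 x y := by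
    intro x y
    have e : F.M4 (t1 + t2) x y = (t1 [x.1, x.2, F.st y.2, F.st y.1] +
      t2 [x.1, x.2, F.st y.2, F.st y.1]) * (F.c (F.st y.1) * F.c (F.st y.2)) := rfl
    have e1 : F.M4 t1 x y =
      t1 [x.1, x.2, F.st y.2, F.st y.1] * (F.c (F.st y.1) * F.c (F.st y.2)) := rfl
    have e2 : F.M4 t2 x y =
      t2 [x.1, x.2, F.st y.2, F.st y.1] * (F.c (F.st y.1) * F.c (F.st y.2)) := rfl
    rw [e, e1, e2]
    ring
  -- the contraction of `c1`
  have hs1 : ∑ d, F.c (F.st d) * c1 (F.st d) d = ∑ a, F.c a * c1 a (F.st a) := by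
    rw [← F.sum_st (fun a => F.c a * c1 a (F.st a))]
    refine Finset.sum_congr rfl fun d _ => ?_
    rw [F.st_st]
  have hs2 : ∀ d, ks K (F.o d) (F.o d) = sg K (F.o d) := fun d => ks_self K _
  have hsg : ∀ d, sg K (F.o d) * sg K (F.o d) = 1 := fun d => sg_mul_self K _
  refine ⟨t1 + t2, (A 2).add_mem mem1 mem2, ?_, ?_, ?_⟩
  · intro x p q hp hq
    obtain ⟨a, d⟩ := x
    rw [g, g, g1, g1, g2, g2]
    have k3 : F.c (F.st p) = -F.c p := by rw [F.c_st, hp]; unfold sg; simp
    have k4 : F.c (F.st q) = -F.c q := by rw [F.c_st, hq]; unfold sg; simp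
    have k5 := ks_mul_self K (F.o d) true
    rw [k3, k4, hp, hq, k5]
    ring
  · have e : F.str2 (F.M4 (t1 + t2)) = ∑ a, ∑ d, sg K (F.o a) * sg K (F.o d) *
        (F.M4 t1 (a, d) (a, d) + F.M4 t2 (a, d) (a, d)) := by
      unfold OForm.str2
      rw [Fintype.sum_prod_type]
      refine Finset.sum_congr rfl fun a _ => Finset.sum_congr rfl fun d _ => ?_
      rw [g]
    have e3 : ∀ a d, sg K (F.o a) * sg K (F.o d) *
        (F.M4 t1 (a, d) (a, d) + F.M4 t2 (a, d) (a, d)) =
        sg K (F.o a) * (F.c (F.st d) * c1 (F.st d) d) +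
        ks K (F.o a) (F.o (F.st d)) * F.c a * F.c (F.st d) *
          c2 a (F.st d) (F.st a) (F.st (F.st d)) := by
      intro a d
      rw [g1, if_pos rfl, g2, hs2, F.st_st, F.o_st, ks_comm K (F.o a) (F.o d), ← F.sg_c_st a,
        F.c_st d]
      have h := hsg d
      linear_combination (ks K (F.o d) (F.o a) * (sg K (F.o a) * F.c (F.st a)) *
        (sg K (F.o d) * F.c d) * c2 a (F.st d) (F.st a) d) * h
    rw [e]
    simp only [e3, Finset.sum_add_distrib]
    have e4 : ∑ a, ∑ d, sg K (F.o a) * (F.c (F.st d) * c1 (F.st d) d) =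
        F.sd * ∑ a, F.c a * c1 a (F.st a) := by
      rw [← hs1, OForm.sd, Finset.sum_mul]
      refine Finset.sum_congr rfl fun a _ => ?_
      rw [Finset.mul_sum]
    rw [e4]
    congr 1
    refine Finset.sum_congr rfl fun a _ => ?_
    exact F.sum_st (fun b => ks K (F.o a) (F.o b) * F.c a * F.c b * c2 a b (F.st a) (F.st b))
  · have hS : ∀ a d, (F.M4 (t1 + t2) * F.Sx) (a, d) (a, d) =
        (F.M4 t1 (a, d) (d, a) + F.M4 t2 (a, d) (d, a)) * ks K (F.o d) (F.o a) := by
      intro a d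
      rw [Matrix.mul_apply, Finset.sum_eq_single (d, a)]
      · rw [g]
        have : F.Sx (d, a) (a, d) = if d = d ∧ a = a then ks K (F.o d) (F.o a) else 0 := rfl
        rw [this, if_pos ⟨rfl, rfl⟩]
      · intro z _ hz
        have : F.Sx z (a, d) = if z.1 = d ∧ z.2 = a then ks K (F.o z.1) (F.o z.2) else 0 := rfl
        rw [this, if_neg, mul_zero]
        rintro ⟨h1, h2⟩
        exact hz (Prod.ext h1 h2)
      · intro h
        exact absurd (Finset.mem_univ _) h
    have e : F.str2 (F.M4 (t1 + t2) * F.Sx) = ∑ a, ∑ d, sg K (F.o a) * sg K (F.o d) *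
        ((F.M4 t1 (a, d) (d, a) + F.M4 t2 (a, d) (d, a)) * ks K (F.o d) (F.o a)) := by
      unfold OForm.str2
      rw [Fintype.sum_prod_type]
      refine Finset.sum_congr rfl fun a _ => Finset.sum_congr rfl fun d _ => ?_
      rw [hS]
    have e1 : ∀ a d, sg K (F.o a) * sg K (F.o d) * (F.M4 t1 (a, d) (d, a) *
        ks K (F.o d) (F.o a)) = if a = d then F.c (F.st a) * c1 (F.st a) a else 0 := by
      intro a d
      rw [g1]
      by_cases h : a = d
      · rw [if_pos h, if_pos h, ← h, ks_self, F.c_st]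
        linear_combination (sg K (F.o a) * F.c a * c1 (F.st a) a) * hsg a
      · rw [if_neg h, if_neg h]
        ring
    have e2 : ∀ a d, sg K (F.o a) * sg K (F.o d) * (F.M4 t2 (a, d) (d, a) *
        ks K (F.o d) (F.o a)) = F.c a * F.c (F.st d) * c2 a (F.st a) (F.st d) d := by
      intro a d
      rw [g2, hs2]
      calc _ = (sg K (F.o d) * sg K (F.o d)) * (ks K (F.o d) (F.o a) * ks K (F.o d) (F.o a)) *
            ((sg K (F.o a) * F.c (F.st a)) * F.c (F.st d) * c2 a (F.st a) (F.st d) d) := by ring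
        _ = _ := by rw [hsg, ks_mul_self, F.sg_c_st, one_mul, one_mul]
    have e3 : ∀ a d, sg K (F.o a) * sg K (F.o d) *
        ((F.M4 t1 (a, d) (d, a) + F.M4 t2 (a, d) (d, a)) * ks K (F.o d) (F.o a)) =
        (if a = d then F.c (F.st a) * c1 (F.st a) a else 0) +
        F.c a * F.c (F.st d) * c2 a (F.st a) (F.st d) d := by
      intro a d
      rw [← e1, ← e2]
      ring
    rw [e]
    simp only [e3, Finset.sum_add_distrib]
    have e4 : ∑ a, ∑ d, (if a = d then F.c (F.st a) * c1 (F.st a) a else 0) =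
        ∑ a, F.c a * c1 a (F.st a) := by
      rw [← hs1]
      refine Finset.sum_congr rfl fun a _ => ?_
      rw [Finset.sum_ite_eq, if_pos (Finset.mem_univ _)]
    rw [e4]

end Pool.Agent.H35.FTM
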